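import Mathlib

open Filter Set MeasureTheory Topology
open scoped Real Matrix

namespace Pool.Agent.R957.Fbm

noncomputable section

/-- covariance of fractional Brownian motion with Hurst parameter `H` -/
def cov (H s t : ℝ) : ℝ := (|s| ^ (2 * H) + |t| ^ (2 * H) - |s - t| ^ (2 * H)) / 2

variable {γ : ℝ}

/-- weight -/
def w (γ x : ℝ) : ℝ := x ^ (-1 - γ)

lemma w_pos {x : ℝ} (hx : 0 < x) : 0 < w γ x := Real.rpow_pos_of_pos hx _

lemma w_cont : ContinuousOn (w γ) (Ioi 0) := fun x hx =>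
  (Real.continuousAt_rpow_const x _ (Or.inl (ne_of_gt hx))).continuousWithinAt

/-- integrability -/
lemma int_of_le (h0 : 0 < γ) (h2 : γ < 2) (f : ℝ → ℝ) (hf : Continuous f) (K : ℝ)
    (h1 : ∀ x, |f x| ≤ K * x ^ 2) (hb : ∀ x, |f x| ≤ K) :
    IntegrableOn (fun x => f x * w γ x) (Ioi 0) := by
  have hK : 0 ≤ K := (abs_nonneg _).trans (hb 0)
  have hm : AEStronglyMeasurable (fun x => f x * w γ x) (volume.restrict (Ioi 0)) :=
    (hf.continuousOn.mul w_cont).aestronglyMeasurable measurableSet_Ioi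
  rw [← Ioc_union_Ioi_eq_Ioi (zero_le_one' ℝ), integrableOn_union]
  constructor
  · have hI : IntegrableOn (fun x : ℝ => K * x ^ (1 - γ)) (Ioc 0 1) := by
      have := (intervalIntegral.intervalIntegrable_rpow' (a := 0) (b := 1) (r := 1 - γ)
        (by linarith)).const_mul K
      exact (intervalIntegrable_iff_integrableOn_Ioc_of_le zero_le_one).1 this
    refine Integrable.mono' hI (hm.mono_measure (Measure.restrict_mono
      (Ioc_subset_Ioi_self) le_rfl)) ?_
    refine (ae_restrict_iff' measurableSet_Ioc).2 (Eventually.of_forall fun x hx => ?_)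
    have hw := w_pos (γ := γ) hx.1
    rw [Real.norm_eq_abs, abs_mul, abs_of_pos hw]
    calc |f x| * w γ x ≤ (K * x ^ 2) * w γ x := by gcongr; exact h1 x
      _ = K * x ^ (1 - γ) := by
        rw [mul_assoc, w, ← Real.rpow_natCast x 2, ← Real.rpow_add hx.1]
        congr 2
        push_cast; ring
  · have hI : IntegrableOn (fun x : ℝ => K * x ^ (-1 - γ)) (Ioi 1) :=
      (integrableOn_Ioi_rpow_of_lt (by linarith) one_pos).const_mul K
    refine Integrable.mono' hI (hm.mono_measure (Measure.restrict_mono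
      (Ioi_subset_Ioi zero_le_one) le_rfl)) ?_
    refine (ae_restrict_iff' measurableSet_Ioi).2 (Eventually.of_forall fun x hx => ?_)
    have hx0 : (0 : ℝ) < x := zero_lt_one.trans hx
    have hw := w_pos (γ := γ) hx0
    rw [Real.norm_eq_abs, abs_mul, abs_of_pos hw]
    exact mul_le_mul_of_nonneg_right (hb x) hw.le

lemma one_sub_cos_le (y : ℝ) : 1 - Real.cos y ≤ y ^ 2 / 2 := by
  have := Real.one_sub_sq_div_two_le_cos (x := y); linarith

lemma int_cos (h0 : 0 < γ) (h2 : γ < 2) (u : ℝ) :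
    IntegrableOn (fun x => (1 - Real.cos (u * x)) * w γ x) (Ioi 0) := by
  refine int_of_le h0 h2 _ (by fun_prop) (u ^ 2 + 2) (fun x => ?_) fun x => ?_
  · have h1 : 0 ≤ 1 - Real.cos (u * x) := by linarith [Real.cos_le_one (u * x)]
    rw [abs_of_nonneg h1]
    have := one_sub_cos_le (u * x)
    nlinarith [sq_nonneg x, sq_nonneg (u * x)]
  · have h1 : 0 ≤ 1 - Real.cos (u * x) := by linarith [Real.cos_le_one (u * x)]
    rw [abs_of_nonneg h1]
    nlinarith [Real.neg_one_le_cos (u * x), sq_nonneg u]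

/-- the constant -/
def C0 (γ : ℝ) : ℝ := ∫ x in Ioi 0, (1 - Real.cos x) * w γ x

lemma C0_pos (h0 : 0 < γ) (h2 : γ < 2) : 0 < C0 γ := by
  unfold C0
  have hint : IntegrableOn (fun x => (1 - Real.cos x) * w γ x) (Ioi 0) := by
    simpa using int_cos h0 h2 1
  rw [setIntegral_pos_iff_support_of_nonneg_ae ?_ hint]
  · have hsub : Ioo (0 : ℝ) 1 ⊆ Function.support (fun x => (1 - Real.cos x) * w γ x) ∩ Ioi 0 := by
      intro x hx
      refine ⟨?_, hx.1⟩
      have h1 : Real.cos x < 1 := by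
        rw [← Real.cos_zero]
        exact Real.cos_lt_cos_of_nonneg_of_le_pi le_rfl (by linarith [Real.pi_gt_three, hx.2]) hx.1
      exact mul_ne_zero (by linarith) (w_pos hx.1).ne'
    refine lt_of_lt_of_le ?_ (measure_mono hsub)
    rw [Real.volume_Ioo]; simp
  · refine (ae_restrict_iff' measurableSet_Ioi).2 (Eventually.of_forall fun x hx => ?_)
    exact mul_nonneg (by linarith [Real.cos_le_one x]) (w_pos hx).le

lemma scale {u : ℝ} (hu : 0 < u) :
    ∫ x in Ioi 0, (1 - Real.cos (u * x)) * w γ x = u ^ γ * C0 γ := by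
  have h := integral_comp_mul_left_Ioi (fun y => (1 - Real.cos y) * w γ y) 0 hu
  rw [mul_zero] at h
  have h1 : ∫ x in Ioi (0 : ℝ), (1 - Real.cos (u * x)) * w γ (u * x) =
      u ^ (-1 - γ) * ∫ x in Ioi 0, (1 - Real.cos (u * x)) * w γ x := by
    rw [← integral_const_mul]
    refine setIntegral_congr_fun measurableSet_Ioi fun x hx => ?_
    have hx' : (0 : ℝ) < x := hx
    simp only [w]
    rw [Real.mul_rpow hu.le hx'.le]; ring
  rw [h1] at h
  unfold C0
  rw [smul_eq_mul] at h
  have h3 : u ^ (1 + γ) * u ^ (-1 - γ) = 1 := by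
    rw [← Real.rpow_add hu]; simp
  have h4 : u ^ γ = u ^ (1 + γ) * u⁻¹ := by
    rw [Real.rpow_add hu, Real.rpow_one]; field_simp
  calc _ = (u ^ (1 + γ) * u ^ (-1 - γ)) * ∫ x in Ioi 0, (1 - Real.cos (u * x)) * w γ x := by
        rw [h3, one_mul]
    _ = u ^ (1 + γ) * (u⁻¹ * ∫ x in Ioi 0, (1 - Real.cos x) * w γ x) := by rw [mul_assoc, h]
    _ = _ := by rw [h4]; ring

lemma scale' (h0 : 0 < γ) (u : ℝ) :
    ∫ x in Ioi 0, (1 - Real.cos (u * x)) * w γ x = |u| ^ γ * C0 γ := by
  rcases lt_trichotomy u 0 with h | h | h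
  · rw [← scale (abs_pos.2 h.ne), abs_of_neg h]
    refine setIntegral_congr_fun measurableSet_Ioi fun x _ => ?_
    simp only [neg_mul, Real.cos_neg]
  · subst h
    simp [h0.ne']
  · rw [abs_of_pos h, scale h]

lemma rep (h0 : 0 < γ) (h2 : γ < 2) (s t : ℝ) : cov (γ / 2) s t = 1 / (2 * C0 γ) *
    ∫ x in Ioi 0, ((1 - Real.cos (s * x)) * (1 - Real.cos (t * x)) +
      Real.sin (s * x) * Real.sin (t * x)) * w γ x := by
  have hC := C0_pos h0 h2
  have e : ∀ x, ((1 - Real.cos (s * x)) * (1 - Real.cos (t * x)) +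
      Real.sin (s * x) * Real.sin (t * x)) * w γ x =
      (1 - Real.cos (s * x)) * w γ x + (1 - Real.cos (t * x)) * w γ x -
        (1 - Real.cos ((s - t) * x)) * w γ x := by
    intro x
    rw [sub_mul s t x, Real.cos_sub]; ring
  simp_rw [e]
  have hA : Integrable (fun x => (1 - Real.cos (s * x)) * w γ x +
      (1 - Real.cos (t * x)) * w γ x) (volume.restrict (Ioi 0)) :=
    (int_cos h0 h2 s).add (int_cos h0 h2 t)
  rw [integral_sub hA (int_cos h0 h2 (s - t)),
    integral_add (int_cos h0 h2 s) (int_cos h0 h2 t), scale' h0, scale' h0, scale' h0]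
  unfold cov
  have : 2 * (γ / 2) = γ := by ring
  rw [this]
  field_simp

lemma int_rep (h0 : 0 < γ) (h2 : γ < 2) (s t : ℝ) :
    IntegrableOn (fun x => ((1 - Real.cos (s * x)) * (1 - Real.cos (t * x)) +
      Real.sin (s * x) * Real.sin (t * x)) * w γ x) (Ioi 0) := by
  have e : (fun x => ((1 - Real.cos (s * x)) * (1 - Real.cos (t * x)) +
      Real.sin (s * x) * Real.sin (t * x)) * w γ x) = fun x =>
      (1 - Real.cos (s * x)) * w γ x + (1 - Real.cos (t * x)) * w γ x -
        (1 - Real.cos ((s - t) * x)) * w γ x := by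
    funext x
    rw [sub_mul s t x, Real.cos_sub]; ring
  rw [e]
  exact ((int_cos h0 h2 s).add (int_cos h0 h2 t)).sub (int_cos h0 h2 (s - t))

/-! ### quadratic forms -/

variable {N : ℕ}

/-- cosine part -/
def PP (c : Fin N → ℝ) (x : ℝ) : ℝ := ∑ i, c i * (1 - Real.cos (((i : ℕ) + 1 : ℝ) * x))

/-- sine part -/
def SS (c : Fin N → ℝ) (x : ℝ) : ℝ := ∑ i, c i * Real.sin (((i : ℕ) + 1 : ℝ) * x)

lemma PP_cont (c : Fin N → ℝ) : Continuous (PP c) := by unfold PP; fun_prop

lemma SS_cont (c : Fin N → ℝ) : Continuous (SS c) := by unfold SS; fun_prop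

/-- the covariance matrix -/
def RR (γ : ℝ) (N : ℕ) : Matrix (Fin N) (Fin N) ℝ :=
  Matrix.of fun i j => cov (γ / 2) ((i : ℕ) + 1) ((j : ℕ) + 1)

lemma quad_eq (h0 : 0 < γ) (h2 : γ < 2) (c : Fin N → ℝ) :
    ∑ i, ∑ j, c i * RR γ N i j * c j =
      1 / (2 * C0 γ) * ∫ x in Ioi 0, (PP c x ^ 2 + SS c x ^ 2) * w γ x := by
  have e : ∀ x, (PP c x ^ 2 + SS c x ^ 2) * w γ x = ∑ i, ∑ j, c i * c j *
      (((1 - Real.cos (((i : ℕ) + 1 : ℝ) * x)) * (1 - Real.cos (((j : ℕ) + 1 : ℝ) * x)) +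
      Real.sin (((i : ℕ) + 1 : ℝ) * x) * Real.sin (((j : ℕ) + 1 : ℝ) * x)) * w γ x) := by
    intro x
    unfold PP SS
    rw [sq, sq, Finset.sum_mul_sum, Finset.sum_mul_sum, ← Finset.sum_add_distrib, Finset.sum_mul]
    refine Finset.sum_congr rfl fun i _ => ?_
    rw [← Finset.sum_add_distrib, Finset.sum_mul]
    refine Finset.sum_congr rfl fun j _ => ?_
    ring
  simp_rw [e]
  rw [integral_finsetSum _ fun i _ => integrable_finsetSum _ fun j _ =>
    (int_rep h0 h2 _ _).const_mul _]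
  rw [Finset.mul_sum]
  refine Finset.sum_congr rfl fun i _ => ?_
  rw [integral_finsetSum _ fun j _ => (int_rep h0 h2 _ _).const_mul _, Finset.mul_sum]
  refine Finset.sum_congr rfl fun j _ => ?_
  rw [integral_const_mul]
  simp only [RR, Matrix.of_apply]
  rw [rep h0 h2]
  ring

lemma int_quad (h0 : 0 < γ) (h2 : γ < 2) (c : Fin N → ℝ) :
    IntegrableOn (fun x => (PP c x ^ 2 + SS c x ^ 2) * w γ x) (Ioi 0) := by
  have e : (fun x => (PP c x ^ 2 + SS c x ^ 2) * w γ x) = fun x => ∑ i, ∑ j, c i * c j *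
      (((1 - Real.cos (((i : ℕ) + 1 : ℝ) * x)) * (1 - Real.cos (((j : ℕ) + 1 : ℝ) * x)) +
      Real.sin (((i : ℕ) + 1 : ℝ) * x) * Real.sin (((j : ℕ) + 1 : ℝ) * x)) * w γ x) := by
    funext x
    unfold PP SS
    rw [sq, sq, Finset.sum_mul_sum, Finset.sum_mul_sum, ← Finset.sum_add_distrib, Finset.sum_mul]
    refine Finset.sum_congr rfl fun i _ => ?_
    rw [← Finset.sum_add_distrib, Finset.sum_mul]
    refine Finset.sum_congr rfl fun j _ => ?_
    ring
  rw [e]
  exact integrable_finsetSum _ fun i _ => integrable_finsetSum _ fun j _ =>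
    (int_rep h0 h2 _ _).const_mul _

lemma integral_cos_int {k : ℝ} (hk : k ≠ 0) (hki : ∃ n : ℤ, k = n) :
    ∫ x in (0 : ℝ)..(2 * π), Real.cos (k * x) = 0 := by
  rw [intervalIntegral.integral_comp_mul_left (fun x => Real.cos x) hk, integral_cos]
  obtain ⟨n, rfl⟩ := hki
  have : Real.sin ((n : ℝ) * (2 * π)) = 0 := by
    have := Real.sin_int_mul_pi (2 * n)
    rw [← this]; congr 1; push_cast; ring
  rw [this]; simp

lemma PP_int (c : Fin N → ℝ) : ∫ x in (0 : ℝ)..(2 * π), PP c x = 2 * π * ∑ i, c i := by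
  unfold PP
  rw [intervalIntegral.integral_finsetSum fun i _ => by
    exact Continuous.intervalIntegrable (by fun_prop) _ _]
  rw [Finset.mul_sum]
  refine Finset.sum_congr rfl fun i _ => ?_
  rw [intervalIntegral.integral_const_mul, intervalIntegral.integral_sub
    (by exact Continuous.intervalIntegrable (by fun_prop) _ _)
    (by exact Continuous.intervalIntegrable (by fun_prop) _ _),
    integral_cos_int (by positivity) ⟨(i : ℕ) + 1, by push_cast; rfl⟩]
  simp; ring

lemma PP_sq (c : Fin N → ℝ) : 2 * π * (∑ i, c i) ^ 2 ≤ ∫ x in (0 : ℝ)..(2 * π), PP c x ^ 2 := by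
  set σ := ∑ i, c i with hσ
  have h := PP_int c
  have h1 : ∫ x in (0 : ℝ)..(2 * π), (2 * σ * PP c x - σ ^ 2) ≤
      ∫ x in (0 : ℝ)..(2 * π), PP c x ^ 2 := by
    refine intervalIntegral.integral_mono_on (by positivity)
      (Continuous.intervalIntegrable (by have := PP_cont c; fun_prop) _ _)
      (Continuous.intervalIntegrable (by have := PP_cont c; fun_prop) _ _) fun x _ => ?_
    nlinarith [sq_nonneg (PP c x - σ)]
  rw [intervalIntegral.integral_sub
    (Continuous.intervalIntegrable (by have := PP_cont c; fun_prop) _ _)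
    (Continuous.intervalIntegrable (by fun_prop) _ _), intervalIntegral.integral_const_mul, h,
    intervalIntegral.integral_const] at h1
  refine le_trans (le_of_eq ?_) h1
  rw [smul_eq_mul, ← hσ]
  ring

lemma sin_orth {a b : ℕ} (ha : 1 ≤ a) : ∫ x in (0 : ℝ)..(2 * π), Real.sin (a * x) * Real.sin (b * x)
    = if a = b then π else 0 := by
  have e : ∀ x : ℝ, Real.sin (a * x) * Real.sin (b * x) =
      1 / 2 * Real.cos (((a : ℝ) - b) * x) - 1 / 2 * Real.cos (((a : ℝ) + b) * x) := by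
    intro x
    rw [sub_mul, add_mul, Real.cos_sub, Real.cos_add]; ring
  simp_rw [e]
  rw [intervalIntegral.integral_sub (Continuous.intervalIntegrable (by fun_prop) _ _)
    (Continuous.intervalIntegrable (by fun_prop) _ _), intervalIntegral.integral_const_mul,
    intervalIntegral.integral_const_mul,
    integral_cos_int (k := (a : ℝ) + b) (by positivity) ⟨(a : ℤ) + b, by push_cast; rfl⟩]
  split_ifs with h
  · subst h
    simp
  · rw [integral_cos_int (k := (a : ℝ) - b) ?_ ⟨(a : ℤ) - b, by push_cast; rfl⟩]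
    · ring
    · intro h'
      exact h (by exact_mod_cast sub_eq_zero.1 h')

lemma SS_sq (c : Fin N → ℝ) : ∫ x in (0 : ℝ)..(2 * π), SS c x ^ 2 = π * ∑ i, c i ^ 2 := by
  have e : ∀ x, SS c x ^ 2 = ∑ i, ∑ j, c i * c j *
      (Real.sin (((i : ℕ) + 1 : ℕ) * x) * Real.sin (((j : ℕ) + 1 : ℕ) * x)) := by
    intro x
    unfold SS
    rw [sq, Finset.sum_mul_sum]
    refine Finset.sum_congr rfl fun i _ => Finset.sum_congr rfl fun j _ => ?_
    push_cast; ring
  simp_rw [e]
  rw [intervalIntegral.integral_finsetSum fun i _ => by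
    exact Continuous.intervalIntegrable (by fun_prop) _ _]
  rw [Finset.mul_sum]
  refine Finset.sum_congr rfl fun i _ => ?_
  rw [intervalIntegral.integral_finsetSum fun j _ => by
    exact Continuous.intervalIntegrable (by fun_prop) _ _]
  have : ∀ j : Fin N, ∫ x in (0 : ℝ)..(2 * π), c i * c j *
      (Real.sin (((i : ℕ) + 1 : ℕ) * x) * Real.sin (((j : ℕ) + 1 : ℕ) * x)) =
      if i = j then c i * c j * π else 0 := by
    intro j
    rw [intervalIntegral.integral_const_mul, sin_orth (by omega)]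
    by_cases h : i = j
    · subst h; simp
    · have h' : ¬ ((i : ℕ) + 1 = (j : ℕ) + 1) := fun h' => h (Fin.ext (by omega))
      rw [if_neg h', if_neg h, mul_zero]
  simp_rw [this]
  rw [Finset.sum_ite_eq]
  simp
  ring

/-- the constant in the lower bound -/
def kap (γ : ℝ) : ℝ := 1 / (2 * C0 γ) * (2 * π) ^ (-1 - γ) * π

lemma kap_pos (h0 : 0 < γ) (h2 : γ < 2) : 0 < kap γ := by
  have := C0_pos h0 h2
  unfold kap
  positivity

theorem quad_ge (h0 : 0 < γ) (h2 : γ < 2) (c : Fin N → ℝ) :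
    kap γ * ((∑ i, c i) ^ 2 + ∑ i, c i ^ 2) ≤ ∑ i, ∑ j, c i * RR γ N i j * c j := by
  have hC := C0_pos h0 h2
  rw [quad_eq h0 h2]
  have hpi : (0 : ℝ) < 2 * π := by positivity
  have h1 : (2 * π) ^ (-1 - γ) * ∫ x in (0 : ℝ)..(2 * π), (PP c x ^ 2 + SS c x ^ 2) ≤
      ∫ x in Ioi 0, (PP c x ^ 2 + SS c x ^ 2) * w γ x := by
    rw [intervalIntegral.integral_of_le hpi.le, ← integral_const_mul]
    calc ∫ x in Ioc 0 (2 * π), (2 * π) ^ (-1 - γ) * (PP c x ^ 2 + SS c x ^ 2)
        ≤ ∫ x in Ioc 0 (2 * π), (PP c x ^ 2 + SS c x ^ 2) * w γ x := by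
          refine setIntegral_mono_on ?_ ((int_quad h0 h2 c).mono_set Ioc_subset_Ioi_self)
            measurableSet_Ioc fun x hx => ?_
          · refine Continuous.integrableOn_Ioc ?_
            have := PP_cont c
            have := SS_cont c
            fun_prop
          · rw [mul_comm]
            refine mul_le_mul_of_nonneg_left ?_ (by positivity)
            exact Real.rpow_le_rpow_of_nonpos hx.1 hx.2 (by linarith)
      _ ≤ ∫ x in Ioi 0, (PP c x ^ 2 + SS c x ^ 2) * w γ x := by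
          refine setIntegral_mono_set (int_quad h0 h2 c) ?_ ?_
          · refine (ae_restrict_iff' measurableSet_Ioi).2 (Eventually.of_forall fun x hx => ?_)
            exact mul_nonneg (by positivity) (w_pos hx).le
          · exact (Ioc_subset_Ioi_self).eventuallyLE
  have h3 : π * ((∑ i, c i) ^ 2 + ∑ i, c i ^ 2) ≤
      ∫ x in (0 : ℝ)..(2 * π), (PP c x ^ 2 + SS c x ^ 2) := by
    rw [intervalIntegral.integral_add
      (Continuous.intervalIntegrable (by have := PP_cont c; fun_prop) _ _)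
      (Continuous.intervalIntegrable (by have := SS_cont c; fun_prop) _ _), SS_sq]
    have := PP_sq c
    nlinarith [sq_nonneg (∑ i, c i), Real.pi_pos]
  calc kap γ * ((∑ i, c i) ^ 2 + ∑ i, c i ^ 2) =
        1 / (2 * C0 γ) * ((2 * π) ^ (-1 - γ) * (π * ((∑ i, c i) ^ 2 + ∑ i, c i ^ 2))) := by
        unfold kap; ring
    _ ≤ _ := by
        refine mul_le_mul_of_nonneg_left ?_ (by positivity)
        exact (mul_le_mul_of_nonneg_left h3 (by positivity)).trans h1

end

end Pool.Agent.R957.Fbm
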