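import Pool.Agent.R957.Fbm.Cov

open Filter Set MeasureTheory Topology
open scoped Real Matrix ComplexConjugate

namespace Pool.Agent.R957.Fbm

noncomputable section

variable {γ : ℝ} {N : ℕ}

/-- the real number `a* M a` -/
def herm (M : Matrix (Fin N) (Fin N) ℝ) (a : Fin N → ℂ) : ℝ :=
  (∑ i, ∑ j, conj (a i) * (M i j : ℂ) * a j).re

/-- the minimum over `a ≠ 0` of `(a* R^{∘2} a) / (a* R a)`, `R = R_{γ/2}` of size `N` -/
def kappa (γ : ℝ) (N : ℕ) : ℝ :=
  ⨅ a : {a : Fin N → ℂ // a ≠ 0}, herm (RR γ N ⊙ RR γ N) a.1 / herm (RR γ N) a.1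

lemma herm_eq (M : Matrix (Fin N) (Fin N) ℝ) (a : Fin N → ℂ) : herm M a =
    (∑ i, ∑ j, (a i).re * M i j * (a j).re) + ∑ i, ∑ j, (a i).im * M i j * (a j).im := by
  unfold herm
  simp only [Complex.re_sum]
  rw [← Finset.sum_add_distrib]
  refine Finset.sum_congr rfl fun i _ => ?_
  rw [← Finset.sum_add_distrib]
  refine Finset.sum_congr rfl fun j _ => ?_
  simp [Complex.mul_re, Complex.mul_im]

lemma dot_eq (M : Matrix (Fin N) (Fin N) ℝ) (c : Fin N → ℝ) :
    star c ⬝ᵥ (M *ᵥ c) = ∑ i, ∑ j, c i * M i j * c j := by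
  simp only [dotProduct, Matrix.mulVec, star_trivial, Finset.mul_sum]
  exact Finset.sum_congr rfl fun i _ => Finset.sum_congr rfl fun j _ => by ring

lemma RR_symm (i j : Fin N) : RR γ N i j = RR γ N j i := by
  simp only [RR, Matrix.of_apply, cov]
  rw [abs_sub_comm]; ring

lemma RR_herm : (RR γ N).IsHermitian := by
  ext i j
  rw [Matrix.conjTranspose_apply, star_trivial, RR_symm]

/-- all ones -/
def JJ (N : ℕ) : Matrix (Fin N) (Fin N) ℝ := Matrix.of fun _ _ => 1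

lemma RR_psd (h0 : 0 < γ) (h2 : γ < 2) : (RR γ N).PosSemidef := by
  refine Matrix.PosSemidef.of_dotProduct_mulVec_nonneg RR_herm fun c => ?_
  rw [dot_eq]
  have := quad_ge h0 h2 c
  have h1 := kap_pos h0 h2
  have h3 : 0 ≤ ∑ i, c i ^ 2 := Finset.sum_nonneg fun i _ => sq_nonneg _
  refine le_trans ?_ this
  positivity

lemma B_psd (h0 : 0 < γ) (h2 : γ < 2) : (RR γ N - kap γ • JJ N).PosSemidef := by
  refine Matrix.PosSemidef.of_dotProduct_mulVec_nonneg ?_ fun c => ?_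
  · ext i j
    simp only [Matrix.conjTranspose_apply, star_trivial, Matrix.sub_apply, Matrix.smul_apply, JJ,
      Matrix.of_apply]
    rw [RR_symm]
  · rw [dot_eq]
    have h := quad_ge h0 h2 c
    have h1 := kap_pos h0 h2
    have h3 : 0 ≤ ∑ i, c i ^ 2 := Finset.sum_nonneg fun i _ => sq_nonneg _
    have e : ∑ i, ∑ j, c i * (RR γ N - kap γ • JJ N) i j * c j =
        (∑ i, ∑ j, c i * RR γ N i j * c j) - kap γ * (∑ i, c i) ^ 2 := by
      rw [sq, Finset.sum_mul_sum, Finset.mul_sum, ← Finset.sum_sub_distrib]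
      refine Finset.sum_congr rfl fun i _ => ?_
      rw [Finset.mul_sum, ← Finset.sum_sub_distrib]
      refine Finset.sum_congr rfl fun j _ => ?_
      simp only [Matrix.sub_apply, Matrix.smul_apply, JJ, Matrix.of_apply, smul_eq_mul]
      ring
    rw [e]
    nlinarith

lemma had_ge (h0 : 0 < γ) (h2 : γ < 2) (c : Fin N → ℝ) :
    kap γ * ∑ i, ∑ j, c i * RR γ N i j * c j ≤
      ∑ i, ∑ j, c i * (RR γ N ⊙ RR γ N) i j * c j := by
  have h := ((B_psd (N := N) h0 h2).hadamard (RR_psd h0 h2)).dotProduct_mulVec_nonneg c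
  rw [dot_eq] at h
  have e : ∑ i, ∑ j, c i * ((RR γ N - kap γ • JJ N) ⊙ RR γ N) i j * c j =
      (∑ i, ∑ j, c i * (RR γ N ⊙ RR γ N) i j * c j) -
        kap γ * ∑ i, ∑ j, c i * RR γ N i j * c j := by
    rw [Finset.mul_sum, ← Finset.sum_sub_distrib]
    refine Finset.sum_congr rfl fun i _ => ?_
    rw [Finset.mul_sum, ← Finset.sum_sub_distrib]
    refine Finset.sum_congr rfl fun j _ => ?_
    simp only [Matrix.hadamard_apply, Matrix.sub_apply, Matrix.smul_apply, JJ, Matrix.of_apply,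
      smul_eq_mul]
    ring
  rw [e] at h
  linarith

theorem herm_had_ge (h0 : 0 < γ) (h2 : γ < 2) (a : Fin N → ℂ) :
    kap γ * herm (RR γ N) a ≤ herm (RR γ N ⊙ RR γ N) a := by
  rw [herm_eq, herm_eq, mul_add]
  exact add_le_add (had_ge h0 h2 _) (had_ge h0 h2 _)

theorem herm_pos (h0 : 0 < γ) (h2 : γ < 2) (a : Fin N → ℂ) (ha : a ≠ 0) :
    0 < herm (RR γ N) a := by
  rw [herm_eq]
  have h1 := quad_ge h0 h2 (fun i => (a i).re)
  have h3 := quad_ge h0 h2 (fun i => (a i).im)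
  have hk := kap_pos h0 h2
  have h4 : 0 < ∑ i, ((a i).re ^ 2 + (a i).im ^ 2) := by
    obtain ⟨i, hi⟩ := Function.ne_iff.1 ha
    have hi' : 0 < (a i).re ^ 2 + (a i).im ^ 2 := by
      rcases eq_or_ne (a i).re 0 with h | h
      · have : (a i).im ≠ 0 := fun h' => hi (Complex.ext h h')
        positivity
      · positivity
    exact Finset.sum_pos' (fun _ _ => by positivity) ⟨i, Finset.mem_univ _, hi'⟩
  rw [Finset.sum_add_distrib] at h4
  have h5 : 0 < kap γ * (∑ i, (a i).re ^ 2 + ∑ i, (a i).im ^ 2) := mul_pos hk h4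
  have h6 : 0 ≤ kap γ * (∑ i, (a i).re) ^ 2 := by positivity
  have h7 : 0 ≤ kap γ * (∑ i, (a i).im) ^ 2 := by positivity
  nlinarith

theorem kap_le_kappa (h0 : 0 < γ) (h2 : γ < 2) (hN : 1 ≤ N) : kap γ ≤ kappa γ N := by
  unfold kappa
  have : Nonempty {a : Fin N → ℂ // a ≠ 0} := by
    refine ⟨⟨fun _ => 1, ?_⟩⟩
    rw [Function.ne_iff]
    exact ⟨⟨0, by omega⟩, by simp⟩
  refine le_ciInf fun a => ?_
  rw [le_div_iff₀ (herm_pos h0 h2 a.1 a.2)]
  exact herm_had_ge h0 h2 a.1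

end

end Pool.Agent.R957.Fbm
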